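import Pool.Agent.H65.SG.Three
import Pool.Graph.R_pool_sql_team_22c7b01f.H3.SgG

open Set Filter Topology MeasureTheory
open scoped ENNReal

namespace Pool.Agent.H65.SG

open Pool.Agent.H3.Sg

/-- the embedding of the rationals in the reals -/
noncomputable def iq : ℚ →+ ℝ := (Rat.castHom ℝ).toAddMonoidHom

lemma iq_apply (q : ℚ) : iq q = (q : ℝ) := rfl

lemma iq_inj : Function.Injective iq := fun x y h => by
  rw [iq_apply, iq_apply] at h
  exact_mod_cast h

/-- the coefficients of an element of the algebra `RA` -/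
noncomputable def cfq (x : L1) (q : ℚ) : ℂ :=
  if h : 0 < q then x ⟨q, h⟩ * (Real.exp ((q : ℝ) ^ 2) : ℝ) else 0

lemma cfq_norm (x : L1) : HasSum (fun q : ℚ => ‖cfq x q‖ * Real.exp (-(q : ℝ) ^ 2)) ‖x‖ := by
  rw [← Subtype.val_injective.hasSum_iff (g := (Subtype.val : QP → ℚ)) (fun q hq => by
      have : ¬ 0 < q := fun h9 => hq ⟨⟨q, h9⟩, rfl⟩
      simp [cfq, this])]
  convert l1_has x with p
  simp only [Function.comp, cfq, dif_pos p.2, norm_mul, Complex.norm_real, Real.norm_eq_abs,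
    abs_of_pos (Real.exp_pos _)]
  rw [mul_assoc, ← Real.exp_add]; simp

lemma cfq_sub (x y : L1) (q : ℚ) : cfq (x - y) q = cfq x q - cfq y q := by
  unfold cfq; split_ifs <;> simp [sub_mul]

lemma cfq_mul (x y : L1) (v : ℚ) : cfq (ml x y) v = ∑' g : ℚ, cfq x g * cfq y (v - g) := by
  classical
  by_cases hv : 0 < v
  swap
  · have : ∀ g : ℚ, cfq x g * cfq y (v - g) = 0 := fun g => by
      unfold cfq
      split_ifs with h1 h2
      · exact absurd (by linarith) hv
      · simp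
      · simp
      · simp
    simp only [this, tsum_zero]
    simp [cfq, hv]
  · have hpos : ∀ g : Function.support (fun g : ℚ => cfq x g * cfq y (v - g)),
        0 < g.1 ∧ 0 < v - g.1 := by
      rintro ⟨g, hg⟩
      have h1 := left_ne_zero_of_mul hg
      have h2 := right_ne_zero_of_mul hg
      unfold cfq at h1 h2
      refine ⟨?_, ?_⟩
      · by_contra h; exact h1 (dif_neg h)
      · by_contra h; exact h2 (dif_neg h)
    simp only [cfq, dif_pos hv]
    rw [ml_apply, ← tsum_mul_right]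
    refine tsum_eq_tsum_of_ne_zero_bij (fun g => (⟨g.1, (hpos g).1⟩, ⟨v - g.1, (hpos g).2⟩)) ?_ ?_ ?_
    · intro g g' h
      have := congrArg (fun p : QP × QP => (p.1 : ℚ)) h
      exact Subtype.ext this
    · rintro ⟨p, q⟩ hpq
      simp only [Function.mem_support] at hpq
      have h1 : (p : ℚ) + q = v := by
        by_contra h; exact hpq (by simp [h])
      have hq : v - (p : ℚ) = q := by linarith
      have hx : x p ≠ 0 := fun h => hpq (by simp [h])
      have hy : y q ≠ 0 := fun h => hpq (by simp [h])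
      refine ⟨⟨(p : ℚ), ?_⟩, ?_⟩
      · simp only [Function.mem_support]
        have h3 : (0 : ℚ) < v - p := by rw [hq]; exact q.2
        have h4 : (⟨v - (p : ℚ), h3⟩ : QP) = q := Subtype.ext hq
        rw [dif_pos p.2, dif_pos h3, h4]
        have : ((Real.exp ((p : ℚ) ^ 2 : ℝ) : ℝ) : ℂ) ≠ 0 := by exact_mod_cast (Real.exp_pos _).ne'
        have : ((Real.exp ((v - (p : ℚ) : ℚ) ^ 2 : ℝ) : ℝ) : ℂ) ≠ 0 := by
          exact_mod_cast (Real.exp_pos _).ne'
        simp_all
      · exact Prod.ext rfl (Subtype.ext hq)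
    · intro g
      have h1 := (hpos g).1
      have h2 := (hpos g).2
      rw [dif_pos h1, dif_pos h2, if_pos (by simp)]
      have : tw (⟨g.1, h1⟩, ⟨v - g.1, h2⟩) * (Real.exp ((v : ℝ) ^ 2) : ℝ)
          = (Real.exp ((g.1 : ℝ) ^ 2) : ℝ) * (Real.exp (((v - g.1 : ℚ) : ℝ) ^ 2) : ℝ) := by
        rw [tw, ← Complex.ofReal_mul, ← Complex.ofReal_mul, ← Real.exp_add, ← Real.exp_add]
        congr 2
        simp only [rq]
        push_cast; ring
      linear_combination (x ⟨g.1, h1⟩ * y ⟨v - g.1, h2⟩) * this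

/-- a semigroup in coefficient form -/
lemma semiL1 {b : ℝ → L1} (hm : ∀ s t, 0 < s → 0 < t → b (s + t) = ml (b s) (b t)) :
    Semi iq (fun q : ℚ => Real.exp (-(q : ℝ) ^ 2)) (fun t q => cfq (b t) q) := by
  refine ⟨fun T => ⟨Real.exp (-T ^ 2), Real.exp_pos _, fun g h0 hT => ?_⟩,
    fun g => (Real.exp_pos _).le, fun t _ g hg => ?_, fun t _ => (cfq_norm (b t)).summable,
    fun s t hs ht v => ?_⟩
  · rw [iq_apply] at h0 hT
    exact Real.exp_le_exp.2 (by nlinarith)
  · rw [iq_apply] at hg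
    have : ¬ 0 < g := not_lt.2 (by exact_mod_cast hg)
    simp [cfq, this]
  · rw [hm s t hs ht, cfq_mul]

theorem L1_zero {b : ℝ → L1} (hm : ∀ s t, 0 < s → 0 < t → b (s + t) = ml (b s) (b t))
    (h : (∃ P : Set ℝ, MeasurableSet P ∧ P ⊆ Ioi 0 ∧ volume P ≠ 0 ∧
      AEStronglyMeasurable b (volume.restrict P)) ∨ ∃ t₀ : ℝ, 0 < t₀ ∧ ContinuousAt b t₀)
    {t : ℝ} (ht : 0 < t) : b t = 0 := by
  have hS := semiL1 hm
  have key : ∀ q, cfq (b t) q = 0 := by
    intro q
    rcases h with ⟨P, hP, hP0, h0, hmeas⟩ | ⟨t₀, ht₀, hc⟩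
    · refine hS.eq_zero_of_meas iq_inj hP hP0 h0 (D := univ) (Set.countable_univ)
        (fun _ _ g hg => absurd (mem_univ g) hg) (fun g => ?_) ht q
      by_cases hg : 0 < g
      · have h1 : AEStronglyMeasurable (fun t => b t ⟨g, hg⟩) (volume.restrict P) :=
          (lp.evalCLM ℂ (fun _ : QP => ℂ) 1 ⟨g, hg⟩).continuous.comp_aestronglyMeasurable hmeas
        simp only [cfq, dif_pos hg]
        exact (h1.aemeasurable).mul_const _
      · simp only [cfq, dif_neg hg]
        exact aemeasurable_const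
    · refine hS.eq_zero_of_cont iq_inj ht₀ ?_ ht q
      have h1 : Tendsto (fun t => ‖b t - b t₀‖) (𝓝 t₀) (𝓝 0) :=
        tendsto_iff_norm_sub_tendsto_zero.mp hc
      refine h1.congr fun t => ?_
      rw [← (cfq_norm (b t - b t₀)).tsum_eq]
      exact tsum_congr fun q => by rw [cfq_sub]
  apply lp.ext
  funext q
  have h2 := key q.1
  have h3 : ((Real.exp (((q : ℚ) : ℝ) ^ 2) : ℝ) : ℂ) ≠ 0 := by exact_mod_cast (Real.exp_pos _).ne'
  simp only [cfq, dif_pos q.2, mul_eq_zero, h3, or_false] at h2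
  simpa using h2

/-- semigroups in `RA` which are strongly measurable on a set of positive measure, or continuous at
one point, vanish -/
theorem RA_zero {a : ℝ → RA} (hm : ∀ s t, 0 < s → 0 < t → a (s + t) = a s * a t)
    (h : (∃ P : Set ℝ, MeasurableSet P ∧ P ⊆ Ioi 0 ∧ volume P ≠ 0 ∧
      AEStronglyMeasurable a (volume.restrict P)) ∨ ∃ t₀ : ℝ, 0 < t₀ ∧ ContinuousAt a t₀)
    {t : ℝ} (ht : 0 < t) : a t = 0 :=
  L1_zero (b := a) hm h ht

end Pool.Agent.H65.SG
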