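import Mathlib

open Set Filter Topology MeasureTheory TopologicalSpace
open scoped ENNReal

namespace Pool.Agent.H65.SG

/-- **Lusin's theorem**, for maps of the real line into a second countable space. -/
theorem lusin {E : Type*} [TopologicalSpace E] [SecondCountableTopology E] {f : ℝ → E}
    (hf : ∀ U : Set E, IsOpen U → MeasurableSet (f ⁻¹' U)) {P : Set ℝ} (hP : MeasurableSet P)
    (h0 : volume P ≠ 0) (hfin : volume P ≠ ∞) :
    ∃ K ⊆ P, IsCompact K ∧ volume K ≠ 0 ∧ ContinuousOn f K := by
  have hcount : Countable (countableBasis E) := (countable_countableBasis E).to_subtype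
  obtain ⟨ε, hε, hsum⟩ := ENNReal.exists_pos_sum_of_countable' h0 (countableBasis E)
  have hU : ∀ U : countableBasis E, IsOpen (U : Set E) := fun U =>
    (isBasis_countableBasis E).isOpen U.2
  have hA : ∀ U : countableBasis E, MeasurableSet (f ⁻¹' (U : Set E) ∩ P) := fun U =>
    (hf _ (hU U)).inter hP
  have hex : ∀ U : countableBasis E, ∃ V, V ⊇ f ⁻¹' (U : Set E) ∩ P ∧ IsOpen V ∧
      volume (V \ (f ⁻¹' (U : Set E) ∩ P)) < ε U := by
    intro U
    obtain ⟨V, h1, h2, -, h3⟩ := (hA U).exists_isOpen_sdiff_lt (μ := volume)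
      (ne_top_of_le_ne_top hfin (measure_mono inter_subset_right)) (hε U).ne'
    exact ⟨V, h1, h2, h3⟩
  choose V hV1 hV2 hV3 using hex
  set D : Set ℝ := ⋃ U, V U \ (f ⁻¹' (U : Set E) ∩ P) with hD
  have hDm : MeasurableSet D := MeasurableSet.iUnion fun U => (hV2 U).measurableSet.diff (hA U)
  have hDlt : volume D < volume P :=
    ((measure_iUnion_le _).trans (ENNReal.tsum_le_tsum fun U => (hV3 U).le)).trans_lt hsum
  have hK0 : 0 < volume (P \ D) := by
    rw [pos_iff_ne_zero]
    intro h
    have h1 : volume P ≤ volume (P \ D) + volume D := by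
      refine (measure_mono ?_).trans (measure_union_le _ _)
      intro x hx
      by_cases h2 : x ∈ D
      · exact Or.inr h2
      · exact Or.inl ⟨hx, h2⟩
    rw [h, zero_add] at h1
    exact absurd h1 (not_le.2 hDlt)
  obtain ⟨K, hKs, hKc, hKp⟩ := (hP.diff hDm).exists_lt_isCompact_of_ne_top (μ := volume)
    (ne_top_of_le_ne_top hfin (measure_mono sdiff_subset)) hK0
  refine ⟨K, hKs.trans sdiff_subset, hKc, hKp.ne', ?_⟩
  rw [continuousOn_iff_continuous_domRestrict, (isBasis_countableBasis E).continuous_iff]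
  intro U hUB
  have : K.domRestrict f ⁻¹' U = Subtype.val ⁻¹' (V ⟨U, hUB⟩) := by
    ext x
    constructor
    · intro hx
      exact hV1 ⟨U, hUB⟩ ⟨hx, (hKs x.2).1⟩
    · intro hx
      by_contra h
      refine (hKs x.2).2 (mem_iUnion.2 ⟨⟨U, hUB⟩, hx, fun h2 => h h2.1⟩)
  rw [this]
  exact (hV2 _).preimage continuous_subtype_val

/-- For a set of positive measure there is a reflection with intersection of positive measure. -/
theorem reflect {K : Set ℝ} (hK : MeasurableSet K) (h0 : volume K ≠ 0) :
    ∃ t₀ : ℝ, volume (K ∩ {s | t₀ - s ∈ K}) ≠ 0 := by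
  by_contra hcon
  push Not at hcon
  have hi : Measurable (K.indicator (fun _ => (1 : ℝ≥0∞))) := measurable_const.indicator hK
  have h1 : ∫⁻ t : ℝ, ∫⁻ s : ℝ, K.indicator (fun _ => (1 : ℝ≥0∞)) s *
      K.indicator (fun _ => (1 : ℝ≥0∞)) (t - s) = 0 := by
    have : ∀ t : ℝ, ∫⁻ s : ℝ, K.indicator (fun _ => (1 : ℝ≥0∞)) s *
        K.indicator (fun _ => (1 : ℝ≥0∞)) (t - s) = 0 := by
      intro t
      have hm : MeasurableSet (K ∩ {s | t - s ∈ K}) :=
        hK.inter ((measurable_const.sub measurable_id) hK)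
      rw [← hcon t, ← lintegral_indicator_one hm]
      refine lintegral_congr fun s => ?_
      by_cases h1 : s ∈ K <;> by_cases h2 : t - s ∈ K <;> simp [h1, h2]
    simp [this]
  rw [lintegral_lintegral_swap] at h1
  · have h2 : ∀ s : ℝ, ∫⁻ t : ℝ, K.indicator (fun _ => (1 : ℝ≥0∞)) s *
        K.indicator (fun _ => (1 : ℝ≥0∞)) (t - s) =
        K.indicator (fun _ => (1 : ℝ≥0∞)) s * volume K := by
      intro s
      have hi2 : Measurable fun t : ℝ => K.indicator (fun _ => (1 : ℝ≥0∞)) (t - s) :=
        hi.comp (measurable_id.sub_const s)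
      rw [lintegral_const_mul _ hi2]
      congr 1
      have := lintegral_sub_right_eq_self (μ := volume) (K.indicator (fun _ => (1 : ℝ≥0∞))) s
      rw [this]
      exact lintegral_indicator_one hK
    simp only [h2] at h1
    rw [lintegral_mul_const _ hi] at h1
    have h3 : ∫⁻ s, K.indicator (fun _ => (1 : ℝ≥0∞)) s = volume K := lintegral_indicator_one hK
    rw [h3] at h1
    exact h0 (by simpa using h1)
  · exact ((hi.comp measurable_snd).mul (hi.comp (measurable_fst.sub measurable_snd))).aemeasurable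

end Pool.Agent.H65.SG
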