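import Pool.Agent.H65.SG.Two
import Pool.Agent.H65.SG.Lusin

open Set Filter Topology MeasureTheory TopologicalSpace
open scoped ENNReal Pointwise

namespace Pool.Agent.H65.SG

open Pool.Agent.H96.SG (Sm N conv N_nonneg)

section separable

variable (G : Type*)

/-- the space of absolutely summable families -/
noncomputable abbrev EE : Type _ := lp (fun _ : G => ℂ) 1

open Classical in
noncomputable def sg (g : G) : EE G := lp.single 1 g 1

lemma hasSum_sg (x : EE G) : HasSum (fun g => x g • sg G g) x := by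
  classical
  convert lp.hasSum_single (by norm_num) x with g
  unfold sg
  rw [← lp.single_smul]; simp

theorem sepE [Countable G] : SeparableSpace (EE G) := by
  rw [← isSeparable_univ_iff]
  have h1 : IsSeparable (Submodule.span ℂ (range (sg G)) : Set (EE G)) :=
    (countable_range (sg G)).isSeparable.span
  refine h1.closure.mono fun x _ => ?_
  refine mem_closure_of_tendsto (hasSum_sg G x) (Eventually.of_forall fun s => ?_)
  exact Submodule.sum_mem _ fun g _ =>
    Submodule.smul_mem _ _ (Submodule.subset_span (mem_range_self g))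

lemma norm_EE (x : EE G) : ‖x‖ = ∑' g, ‖x g‖ := by simp [lp.norm_eq_tsum_rpow]

end separable

variable {G : Type*}

/-- Lusin's theorem for a family of absolutely summable functions on a countable set: measurable
coefficients on a set of positive measure give norm continuity on a compact set of positive
measure. -/
theorem lusinN [Countable G] {b : ℝ → G → ℂ} {P : Set ℝ} (hP : MeasurableSet P)
    (h0 : volume P ≠ 0) (hfin : volume P ≠ ∞) (hsm : ∀ s ∈ P, Sm (b s))
    (hm : ∀ g, AEMeasurable (fun t => b t g) (volume.restrict P)) :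
    ∃ (β : ℝ → EE G) (K : Set ℝ), K ⊆ P ∧ IsCompact K ∧ volume K ≠ 0 ∧ ContinuousOn β K ∧
      ∀ s ∈ K, ∀ g, β s g = b s g := by
  classical
  have hsep : SeparableSpace (EE G) := sepE G
  have h2c : SecondCountableTopology (EE G) := UniformSpace.secondCountable_of_separable _
  -- the good set
  have hae : ∀ᵐ t ∂volume, t ∈ P → ∀ g, b t g = (hm g).mk _ t := by
    rw [← ae_restrict_iff' hP, ae_all_iff]
    exact fun g => (hm g).ae_eq_mk
  set Z := toMeasurable volume {t | ¬ (t ∈ P → ∀ g, b t g = (hm g).mk _ t)} with hZ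
  have hZm : MeasurableSet Z := measurableSet_toMeasurable _ _
  have hZ0 : volume Z = 0 := by rw [hZ, measure_toMeasurable]; exact hae
  set Q := P \ Z with hQ
  have hQm : MeasurableSet Q := hP.diff hZm
  have hQeq : ∀ t ∈ Q, ∀ g, b t g = (hm g).mk _ t := by
    intro t ht
    by_contra h
    exact ht.2 (subset_toMeasurable _ _ (fun h2 => h (h2 ht.1)))
  have hQ0 : volume Q ≠ 0 := by rwa [hQ, measure_sdiff_null hZ0]
  have hQfin : volume Q ≠ ∞ := ne_top_of_le_ne_top hfin (measure_mono sdiff_subset)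
  set c : G → ℝ → ℂ := fun g => Q.indicator ((hm g).mk _) with hc
  have hcm : ∀ g, Measurable (c g) := fun g => (hm g).measurable_mk.indicator hQm
  have hcQ : ∀ t ∈ Q, ∀ g, c g t = b t g := fun t ht g => by
    simp only [hc, indicator_of_mem ht, hQeq t ht g]
  have hcs : ∀ t, Summable fun g => ‖c g t‖ := by
    intro t
    by_cases ht : t ∈ Q
    · simp only [hcQ t ht]
      exact hsm t ht.1
    · simp [hc, indicator_of_notMem ht]
  have hmem : ∀ t, Memℓp (fun g => c g t) 1 := fun t => memℓp_gen (by simpa using hcs t)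
  set β : ℝ → EE G := fun t => ⟨fun g => c g t, hmem t⟩ with hβ
  have hβm : StronglyMeasurable β := by
    refine stronglyMeasurable_of_tendsto (u := atTop)
      (f := fun (s : Finset G) t => ∑ g ∈ s, c g t • sg G g) ?_ ?_
    · intro s
      exact Finset.stronglyMeasurable_fun_sum s fun g _ =>
        (hcm g).stronglyMeasurable.smul_const _
    · rw [tendsto_pi_nhds]
      intro t
      exact hasSum_sg G (β t)
  borelize (EE G)
  obtain ⟨K, hKQ, hKc, hK0, hcont⟩ := lusin (f := β)
    (fun U hU => hβm.measurable hU.measurableSet) hQm hQ0 hQfin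
  exact ⟨β, K, hKQ.trans sdiff_subset, hKc, hK0, hcont, fun s hs g => hcQ s (hKQ hs) g⟩

variable {G : Type*} [AddCommGroup G] {ι : G →+ ℝ} {w : G → ℝ} {a : ℝ → G → ℂ}

/-- measurability on a set of positive measure gives a point of norm continuity of the
truncations -/
theorem Semi.point (h : Semi ι w a) (T : ℝ) {P : Set ℝ} (hP : MeasurableSet P)
    {M : ℝ} (hPM : P ⊆ Ioc 0 M) (h0 : volume P ≠ 0) {D : Set G} (hD : D.Countable)
    (hDP : ∀ t ∈ P, ∀ g, g ∉ D → a t g = 0)
    (hm : ∀ g, AEMeasurable (fun t => a t g) (volume.restrict P)) :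
    ∃ t₀ : ℝ, 0 < t₀ ∧ t₀ ≤ 2 * M ∧
      Tendsto (fun u => N (fun g => tr ι T a u g - tr ι T a t₀ g)) (𝓝 t₀) (𝓝 0) := by
  classical
  have hDc : Countable D := hD.to_subtype
  have hfin : volume P ≠ ∞ := ne_top_of_le_ne_top (by simp) (measure_mono hPM)
  obtain ⟨β, K, hKP, hKc, hK0, hcont, hβ⟩ := lusinN (G := D) (b := fun s g => tr ι T a s g)
    hP h0 hfin (fun s hs => (h.trSm T (hPM hs).1).comp_injective Subtype.val_injective)
    (fun g => by
      by_cases hg : ι g < T
      · simpa [tr, hg] using hm g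
      · simp [tr, hg])
  have hDK : ∀ s ∈ K, ∀ g, g ∉ D → tr ι T a s g = 0 := fun s hs g hg => by
    simp [tr, hDP s (hKP hs) g hg]
  have hKpos : ∀ s ∈ K, 0 < s ∧ s ≤ M := fun s hs => hPM (hKP hs)
  have hN : ∀ s ∈ K, ∀ u ∈ K, ‖β u - β s‖ = N (fun g => tr ι T a u g - tr ι T a s g) := by
    intro s hs u hu
    rw [norm_EE, N, ← Subtype.val_injective.tsum_eq (f := fun g =>
      ‖tr ι T a u g - tr ι T a s g‖) (g := (Subtype.val : D → G)) (fun g hg => by
        by_contra hc
        have hg' : g ∉ D := fun h1 => hc ⟨⟨g, h1⟩, rfl⟩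
        simp [hDK s hs g hg', hDK u hu g hg'] at hg)]
    refine tsum_congr fun g => ?_
    rw [lp.coeFn_sub, Pi.sub_apply, hβ s hs, hβ u hu]
  have hN' : ∀ s ∈ K, ‖β s‖ = N (tr ι T a s) := by
    intro s hs
    rw [norm_EE, N, ← Subtype.val_injective.tsum_eq (f := fun g => ‖tr ι T a s g‖)
      (g := (Subtype.val : D → G)) (fun g hg => by
        by_contra hc
        have hg' : g ∉ D := fun h1 => hc ⟨⟨g, h1⟩, rfl⟩
        simp [hDK s hs g hg'] at hg)]
    exact tsum_congr fun g => by rw [hβ s hs]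
  obtain ⟨C, hC⟩ := hKc.exists_bound_of_continuousOn hcont
  have hunif := hKc.uniformContinuousOn_of_continuous hcont
  obtain ⟨t₀, ht₀⟩ := reflect hKc.measurableSet hK0
  set A := K ∩ {s | t₀ - s ∈ K} with hA
  have hAm : MeasurableSet A :=
    hKc.measurableSet.inter ((measurable_const.sub measurable_id) hKc.measurableSet)
  have hAA : A - A ∈ 𝓝 (0 : ℝ) :=
    MeasureTheory.Measure.sub_mem_nhds_zero_of_addHaar_pos volume A hAm (pos_iff_ne_zero.2 ht₀)
  obtain ⟨x, hx⟩ : A.Nonempty := by
    by_contra hcon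
    rw [not_nonempty_iff_eq_empty] at hcon
    exact ht₀ (by rw [hcon]; simp)
  have hx1 := hKpos x hx.1
  have hx2 := hKpos _ hx.2
  refine ⟨t₀, by linarith, by linarith, ?_⟩
  rw [Metric.tendsto_nhds]
  intro ε hε
  have hC1 : 0 < |C| + 1 := by positivity
  obtain ⟨δ, hδ, hunif'⟩ := Metric.uniformContinuousOn_iff.1 hunif (ε / (|C| + 1)) (by positivity)
  have h1 : Tendsto (fun u : ℝ => u - t₀) (𝓝 t₀) (𝓝 0) := by
    have : Tendsto (fun u : ℝ => u - t₀) (𝓝 t₀) (𝓝 (t₀ - t₀)) :=
      (continuous_id.sub continuous_const).tendsto t₀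
    simpa using this
  filter_upwards [h1.eventually hAA, Metric.ball_mem_nhds t₀ hδ] with u hu hu2
  obtain ⟨s', hs', s, hs, hss⟩ := Set.mem_sub.1 hu
  have hs1 := hKpos s hs.1
  have hs2 := hKpos s' hs'.1
  have hs3 := hKpos _ hs.2
  rw [Real.dist_eq, sub_zero, abs_of_nonneg (N_nonneg _)]
  have h2 := h.diff T hs3.1 hs1.1 hs2.1
  rw [show t₀ - s + s' = u by linarith, show t₀ - s + s = t₀ by ring] at h2
  refine h2.trans_lt ?_
  rw [← hN' _ hs.2, ← hN s hs.1 s' hs'.1]
  have h3 : dist (β s') (β s) < ε / (|C| + 1) := by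
    refine hunif' s' hs'.1 s hs.1 ?_
    rw [Real.dist_eq, hss, ← Real.dist_eq]
    exact hu2
  rw [dist_eq_norm] at h3
  have h4 : ‖β (t₀ - s)‖ ≤ |C| := (hC _ hs.2).trans (le_abs_self C)
  calc ‖β (t₀ - s)‖ * ‖β s' - β s‖ ≤ (|C| + 1) * ‖β s' - β s‖ := by gcongr; linarith
    _ < (|C| + 1) * (ε / (|C| + 1)) := by gcongr
    _ = ε := by field_simp

/-- **Measurable semigroups vanish.** If the coefficient functions of the semigroup are measurable
on some set of positive measure, then the semigroup is zero. -/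
theorem Semi.eq_zero_of_meas (h : Semi ι w a) (hι : Function.Injective ι)
    {P : Set ℝ} (hP : MeasurableSet P) (hP0 : P ⊆ Ioi 0) (h0 : volume P ≠ 0) {D : Set G}
    (hD : D.Countable) (hDP : ∀ t ∈ P, ∀ g, g ∉ D → a t g = 0)
    (hm : ∀ g, AEMeasurable (fun t => a t g) (volume.restrict P))
    {t : ℝ} (ht : 0 < t) (g : G) : a t g = 0 := by
  obtain ⟨M, hM⟩ : ∃ n : ℕ, volume (P ∩ Iic (n : ℝ)) ≠ 0 := by
    by_contra hcon
    push Not at hcon
    apply h0
    have : P = ⋃ n : ℕ, P ∩ Iic (n : ℝ) := by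
      ext x
      simp only [mem_iUnion, mem_inter_iff, mem_Iic]
      exact ⟨fun hx => ⟨⌈x⌉₊, hx, Nat.le_ceil x⟩, fun ⟨_, hx, _⟩ => hx⟩
    rw [this]
    exact measure_iUnion_null hcon
  refine h.eq_zero hι (2 * (M : ℝ)) (fun T => ?_) ht g
  exact h.point T (hP.inter measurableSet_Iic) (fun x hx => ⟨hP0 hx.1, hx.2⟩) hM hD
    (fun t ht => hDP t ht.1) fun g => (hm g).mono_measure (Measure.restrict_mono inter_subset_left le_rfl)

end Pool.Agent.H65.SG
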