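import Pool.Agent.H65.SG.One

open Set Metric Complex Filter Topology

namespace Pool.Agent.H65.SG

open Pool.Agent.H96.SG

variable {G : Type*} [AddCommGroup G] {ι : G →+ ℝ}

/-- truncation at `T` -/
noncomputable def tr (ι : G →+ ℝ) (T : ℝ) (a : ℝ → G → ℂ) (s : ℝ) (g : G) : ℂ :=
  open Classical in if ι g < T then a s g else 0

/-- A semigroup in coefficient form in the algebra with the weight `w` (bounded below by positive
constants on bounded sets): no continuity assumed. -/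
structure Semi (ι : G →+ ℝ) (w : G → ℝ) (a : ℝ → G → ℂ) : Prop where
  low : ∀ T : ℝ, ∃ c : ℝ, 0 < c ∧ ∀ g, 0 < ι g → ι g < T → c ≤ w g
  nn : ∀ g, 0 ≤ w g
  zero : ∀ t, 0 < t → ∀ g, ι g ≤ 0 → a t g = 0
  sm : ∀ t, 0 < t → Summable fun g => ‖a t g‖ * w g
  mul : ∀ s t, 0 < s → 0 < t → ∀ v, a (s + t) v = ∑' g, a s g * a t (v - g)

variable {w : G → ℝ} {a : ℝ → G → ℂ}

lemma tr_le {c T : ℝ} (hc : 0 < c) (hlow : ∀ g, 0 < ι g → ι g < T → c ≤ w g)
    (hnn : ∀ g, 0 ≤ w g) (f : G → ℂ) (hf : ∀ g, ι g ≤ 0 → f g = 0) (g : G) :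
    ‖(if ι g < T then f g else 0)‖ ≤ c⁻¹ * (‖f g‖ * w g) := by
  classical
  split_ifs with h
  · rcases le_or_gt (ι g) 0 with h4 | h4
    · simp [hf g h4]
    · have h5 := hlow g h4 h
      calc ‖f g‖ = c⁻¹ * (‖f g‖ * c) := by field_simp
        _ ≤ c⁻¹ * (‖f g‖ * w g) := by gcongr
  · have := hnn g
    simp only [norm_zero]
    positivity

lemma Semi.trSm (h : Semi ι w a) (T : ℝ) {s : ℝ} (hs : 0 < s) : Sm (tr ι T a s) := by
  classical
  obtain ⟨c, hc, hlow⟩ := h.low T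
  refine Summable.of_nonneg_of_le (fun _ => norm_nonneg _) (fun g => ?_) ((h.sm s hs).mul_left c⁻¹)
  unfold tr
  exact tr_le hc hlow h.nn (a s) (h.zero s hs) g

lemma Semi.trSupp (h : Semi ι w a) (T : ℝ) {s : ℝ} (hs : 0 < s) (g : G)
    (hg : tr ι T a s g ≠ 0) : 0 < ι g ∧ ι g < T := by
  classical
  unfold tr at hg
  split_ifs at hg with h1
  · exact ⟨lt_of_not_ge fun h4 => hg (h.zero s hs g h4), h1⟩
  · exact absurd rfl hg

lemma Semi.trMul (h : Semi ι w a) (T : ℝ) {s u : ℝ} (hs : 0 < s) (hu : 0 < u) (v : G)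
    (hv : ι v < T) : tr ι T a (s + u) v = conv (tr ι T a s) (tr ι T a u) v := by
  classical
  simp only [tr, conv, if_pos hv]
  rw [h.mul s u hs hu]
  refine tsum_congr fun g => ?_
  rcases le_or_gt (ι g) 0 with h4 | h4
  · simp [h.zero s hs g h4]
  rcases le_or_gt (ι (v - g)) 0 with h5 | h5
  · simp [h.zero u hu _ h5]
  rw [if_pos (by rw [map_sub] at h5; linarith), if_pos (by rw [map_sub]; linarith)]

/-- differences of the truncated family -/
lemma Semi.diff (h : Semi ι w a) (T : ℝ) {p s u : ℝ} (hp : 0 < p) (hs : 0 < s) (hu : 0 < u) :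
    N (fun g => tr ι T a (p + u) g - tr ι T a (p + s) g) ≤
      N (tr ι T a p) * N (fun g => tr ι T a u g - tr ι T a s g) := by
  have h3 : Sm (fun g => tr ι T a u g - tr ι T a s g) := (h.trSm T hu).sub (h.trSm T hs)
  have h4 := conv_N (h.trSm T hp) h3
  refine (N_mono h4.1 fun v => ?_).2.trans h4.2
  by_cases hv : ι v < T
  · refine le_of_eq ?_
    congr 1
    rw [h.trMul T hp hu v hv, h.trMul T hp hs v hv]
    simp only [conv]
    rw [← Summable.tsum_sub]
    · exact tsum_congr fun g => by ring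
    · exact (by simpa using conv_summ (h.trSm T hp) (h.trSm T hu) v : Summable fun g =>
        ‖tr ι T a p g * tr ι T a u (v - g)‖).of_norm
    · exact (by simpa using conv_summ (h.trSm T hp) (h.trSm T hs) v : Summable fun g =>
        ‖tr ι T a p g * tr ι T a s (v - g)‖).of_norm
  · simp [tr, hv]

/-- continuity of the truncated family at `t₀` gives continuity on `[t₀, ∞)` -/
lemma Semi.trCont (h : Semi ι w a) (T : ℝ) {t₀ : ℝ} (ht₀ : 0 < t₀)
    (hc : Tendsto (fun u => N (fun g => tr ι T a u g - tr ι T a t₀ g)) (𝓝 t₀) (𝓝 0))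
    {s : ℝ} (hs : t₀ ≤ s) :
    Tendsto (fun u => N (fun g => tr ι T a u g - tr ι T a s g)) (𝓝 s) (𝓝 0) := by
  rcases hs.eq_or_lt with rfl | hs
  · exact hc
  have hd : 0 < s - t₀ := by linarith
  have h1 : Tendsto (fun u : ℝ => u - (s - t₀)) (𝓝 s) (𝓝 t₀) := by
    have : Tendsto (fun u : ℝ => u - (s - t₀)) (𝓝 s) (𝓝 (s - (s - t₀))) :=
      (continuous_id.sub continuous_const).tendsto s
    simpa using this
  have h2 := ((hc.comp h1).const_mul (N (tr ι T a (s - t₀))))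
  rw [mul_zero] at h2
  refine squeeze_zero' (Eventually.of_forall fun _ => N_nonneg _) ?_ h2
  filter_upwards [h1.eventually (lt_mem_nhds ht₀)] with u hu
  have := h.diff T hd ht₀ hu
  rw [show s - t₀ + (u - (s - t₀)) = u by ring, show s - t₀ + t₀ = s by ring] at this
  exact this

/-- a square root of zero is zero: if `a (2 t) = 0` then `a t = 0` -/
lemma Semi.sqrt (h : Semi ι w a) (hι : Function.Injective ι) {t : ℝ} (ht : 0 < t)
    (h2 : ∀ g, a (2 * t) g = 0) (g0 : G) : a t g0 = 0 := by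
  classical
  by_contra h0
  set l := ι g0 with hl
  have hl0 : 0 < l := lt_of_not_ge fun h4 => h0 (h.zero t ht g0 h4)
  set T := 2 * l + 2 with hT
  set b := tr ι T a t with hb
  have hsm : Sm b := h.trSm T ht
  have hps : Ps ι b := fun g hg => (h.trSupp T ht g hg).1.le
  have hb0 : b g0 ≠ 0 := by
    simp only [hb, tr, if_pos (show ι g0 < T by rw [← hl]; linarith)]
    exact h0
  have hcs := conv_N hsm hsm
  have hsupp : ∀ v, conv b b v ≠ 0 → T ≤ ι v := by
    intro v hv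
    by_contra h5
    push Not at h5
    apply hv
    rw [← h.trMul T ht ht v h5, ← two_mul]
    simp [tr, h2]
  -- the bound `|F|² ≤ N² e^{-Tσ}`
  have hF : ∀ z : ℂ, 0 ≤ z.re → ‖F ι b (fun _ => 1) z‖ ^ 2 ≤
      (N b * N b) * Real.exp (-(T * z.re)) := by
    intro z hz
    have hχ : IsChar (fun _ : G => (1 : ℂ)) := ⟨fun _ => by simp, fun _ _ => by simp⟩
    have h6 := F_mul hsm hsm hχ hps hps hz
    rw [pow_two, ← norm_mul, h6]
    exact (F_le hcs.1 hχ hsupp hz).trans (by gcongr; exact hcs.2)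
  have hkey : ∀ σ : ℝ, 0 ≤ σ → (‖b g0‖ / 2) ^ 2 ≤ (N b * N b) * Real.exp (-(2 * σ)) := by
    intro σ hσ
    have hχ : IsChar (fun _ : G => (1 : ℂ)) := ⟨fun _ => by simp, fun _ _ => by simp⟩
    obtain ⟨L, _, hL⟩ := rel_dense hι hsm hps g0 hb0 hσ
    obtain ⟨y, _, hy⟩ := hL _ hχ
    have h7 := hF (σ + y * I) (by simpa using hσ)
    have h8 : (‖b g0‖ * Real.exp (-(ι g0 * σ)) / 2) ^ 2 ≤ (N b * N b) * Real.exp (-(T * σ)) := by
      refine (pow_le_pow_left₀ (by positivity) hy 2).trans (h7.trans_eq ?_)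
      simp
    have h9 : (‖b g0‖ / 2) ^ 2 = (‖b g0‖ * Real.exp (-(ι g0 * σ)) / 2) ^ 2 *
        Real.exp (2 * (l * σ)) := by
      rw [mul_div_right_comm, mul_pow, mul_assoc, ← Real.exp_nat_mul, ← Real.exp_add, ← hl]
      have : ((2 : ℕ) : ℝ) * -(l * σ) + 2 * (l * σ) = 0 := by push_cast; ring
      rw [this, Real.exp_zero, mul_one]
    rw [h9]
    calc _ ≤ (N b * N b) * Real.exp (-(T * σ)) * Real.exp (2 * (l * σ)) := by gcongr
      _ = (N b * N b) * Real.exp (-(2 * σ)) := by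
          rw [mul_assoc, ← Real.exp_add]; congr 2; rw [hT]; ring
  have hlim : Tendsto (fun σ : ℝ => (N b * N b) * Real.exp (-(2 * σ))) atTop (𝓝 0) := by
    have h1 : Tendsto (fun σ : ℝ => Real.exp (-(2 * σ))) atTop (𝓝 0) :=
      Real.tendsto_exp_neg_atTop_nhds_zero.comp (tendsto_id.const_mul_atTop two_pos)
    simpa using h1.const_mul (N b * N b)
  have h10 : (‖b g0‖ / 2) ^ 2 ≤ 0 := ge_of_tendsto hlim
    ((eventually_ge_atTop 0).mono fun σ hσ => hkey σ hσ)
  have h11 : 0 < ‖b g0‖ := norm_pos_iff.2 hb0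
  have : 0 < (‖b g0‖ / 2) ^ 2 := by positivity
  linarith

/-- If every truncation of the semigroup is norm-continuous at some point of `(0, B]`, the
semigroup is zero. -/
theorem Semi.eq_zero (h : Semi ι w a) (hι : Function.Injective ι) (B : ℝ)
    (hc : ∀ T : ℝ, ∃ t₀ : ℝ, 0 < t₀ ∧ t₀ ≤ B ∧
      Tendsto (fun u => N (fun g => tr ι T a u g - tr ι T a t₀ g)) (𝓝 t₀) (𝓝 0))
    {t : ℝ} (ht : 0 < t) (g : G) : a t g = 0 := by
  have hbig : ∀ t, 3000 * B ≤ t → ∀ g, a t g = 0 := by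
    intro t ht g
    obtain ⟨t₀, ht₀, ht₁, hct⟩ := hc (ι g + 1)
    have hTS : TS ι (ι g + 1) t₀ (tr ι (ι g + 1) a) :=
      ⟨ht₀, fun s hs => h.trSm _ hs, fun s hs g hg => h.trSupp _ hs g hg,
        fun s u hs hu v hv => h.trMul _ hs hu v hv, fun s hs => h.trCont _ ht₀ hct hs⟩
    have := hTS.zero hι (t := t) (by nlinarith) g
    simpa [tr] using this
  have hdown : ∀ (n : ℕ) (t : ℝ), 0 < t → 3000 * B ≤ 2 ^ n * t → ∀ g, a t g = 0 := by
    intro n
    induction n with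
    | zero => intro t _ h1 g; exact hbig t (by simpa using h1) g
    | succ n ih =>
      intro t ht h1 g
      refine h.sqrt hι ht (fun g => ih (2 * t) (by positivity) ?_ g) g
      rw [pow_succ] at h1; linarith
  obtain ⟨n, hn⟩ := pow_unbounded_of_one_lt (3000 * B / t) (one_lt_two (α := ℝ))
  exact hdown n t ht (by rw [div_lt_iff₀ ht] at hn; exact hn.le) g

/-- **One-point continuity.** A semigroup which is norm-continuous at one point vanishes. -/
theorem Semi.eq_zero_of_cont (h : Semi ι w a) (hι : Function.Injective ι) {t₀ : ℝ} (ht₀ : 0 < t₀)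
    (hc : Tendsto (fun s => ∑' g, ‖a s g - a t₀ g‖ * w g) (𝓝 t₀) (𝓝 0))
    {t : ℝ} (ht : 0 < t) (g : G) : a t g = 0 := by
  classical
  refine h.eq_zero hι t₀ (fun T => ⟨t₀, ht₀, le_rfl, ?_⟩) ht g
  obtain ⟨c, hc0, hlow⟩ := h.low T
  have h4 := hc.const_mul c⁻¹
  rw [mul_zero] at h4
  refine squeeze_zero' (Eventually.of_forall fun _ => N_nonneg _) ?_ h4
  filter_upwards [lt_mem_nhds ht₀] with u hu
  rw [← tsum_mul_left]
  have h5 : Summable fun g => ‖a u g - a t₀ g‖ * w g :=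
    Summable.of_nonneg_of_le (fun g => mul_nonneg (norm_nonneg _) (h.nn g)) (fun g => by
      rw [← add_mul]
      exact mul_le_mul_of_nonneg_right (norm_sub_le _ _) (h.nn g)) ((h.sm u hu).add (h.sm t₀ ht₀))
  refine ((h.trSm T hu).sub (h.trSm T ht₀)).tsum_le_tsum (fun g => ?_) (h5.mul_left _)
  have := tr_le hc0 hlow h.nn (fun g => a u g - a t₀ g)
    (fun g hg => by simp [h.zero u hu g hg, h.zero t₀ ht₀ g hg]) g
  refine le_trans (le_of_eq ?_) this
  simp only [tr]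
  split_ifs <;> simp

end Pool.Agent.H65.SG
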